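import Pool.Agent.Lib.MP_2696ff_co.AA.Gra

/-!
# MP_2696ff_co: the polynomial deck determines almost every graph

The proportion, among all graphs `G` with vertex set `{0, …, n-1}`, of those for which some graph `H`
on `n` vertices has the same polynomial deck as `G` but is not isomorphic to `G`, tends to zero.
-/

set_option autoImplicit false

namespace Pool.Agent.Results.MP_2696ff_co.AlmostAllGraphs

open Classical in
theorem result :
    Filter.Tendsto (fun n : ℕ =>
      (Nat.card {G : SimpleGraph (Fin n) // ∃ H : SimpleGraph (Fin n),
        (Finset.univ : Finset (Fin n)).val.map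
            (fun v => ((G.adjMatrix ℤ).submatrix
              (Subtype.val : {w : Fin n // w ≠ v} → Fin n)
              (Subtype.val : {w : Fin n // w ≠ v} → Fin n)).charpoly)
          = (Finset.univ : Finset (Fin n)).val.map
            (fun v => ((H.adjMatrix ℤ).submatrix
              (Subtype.val : {w : Fin n // w ≠ v} → Fin n)
              (Subtype.val : {w : Fin n // w ≠ v} → Fin n)).charpoly) ∧
        IsEmpty (G ≃g H)} : ℝ) / Nat.card (SimpleGraph (Fin n)))
      Filter.atTop (nhds 0) :=
  Pool.Agent.MP2696.AA.graphs_tendsto

end Pool.Agent.Results.MP_2696ff_co.AlmostAllGraphs
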