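import Pool.Agent.Lib.MP_2696ff_co.Cog

/-!
# MP_2696ff_co, Q1 for cographs

If `G` has `n ≥ 3` vertices and no induced path on four vertices and `H` is any graph on `n`
vertices with the same polynomial deck, then `G` and `H` have the same characteristic polynomial.
-/

set_option autoImplicit false

namespace Pool.Agent.Results.MP_2696ff_co.Cographs

open Pool.Agent.MP2696 Polynomial

private theorem relabel {n : ℕ} (A B : Matrix (Fin n) (Fin n) ℤ)
    (h : (Finset.univ : Finset (Fin n)).val.map (fun v => (del A v).charpoly) =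
      (Finset.univ : Finset (Fin n)).val.map (fun v => (del B v).charpoly)) :
    ∃ σ : Fin n ≃ Fin n, (∀ v, (del A v).charpoly = (del (B.submatrix σ σ) v).charpoly) ∧
      (B.submatrix σ σ).charpoly = B.charpoly := by
  classical
  obtain ⟨σ, hσ⟩ : ∃ σ : Fin n ≃ Fin n, ∀ v, (del B (σ v)).charpoly = (del A v).charpoly := by
    have hcount : ∀ c : ℤ[X], Fintype.card {a : Fin n // (del A a).charpoly = c} =
        Fintype.card {b : Fin n // (del B b).charpoly = c} := by
      intro c
      have h1 := congrArg (Multiset.count c) h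
      rw [Multiset.count_map, Multiset.count_map] at h1
      rw [Fintype.card_subtype, Fintype.card_subtype]
      simp only [Finset.card, Finset.filter]
      simpa [eq_comm] using h1
    let e0 : ∀ c : ℤ[X], {a : Fin n // (fun v => (del A v).charpoly) a = c} ≃
        {b : Fin n // (fun v => (del B v).charpoly) b = c} :=
      fun c => Fintype.equivOfCardEq (hcount c)
    exact ⟨Equiv.ofFiberEquiv e0, fun v => Equiv.ofFiberEquiv_map e0 v⟩
  refine ⟨σ, fun v => ?_, ?_⟩
  · rw [charpoly_del_submatrix]
    exact (hσ v).symm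
  · rw [← Matrix.charpoly_reindex σ (B.submatrix σ σ)]
    congr 1
    ext i j
    simp

private theorem p4free {V : Type} (G : SimpleGraph V)
    (h : IsEmpty (SimpleGraph.pathGraph 4 ↪g G)) : P4Free G := by
  intro a b c d hab hbc hcd hac hbd
  by_contra had
  have nab := G.ne_of_adj hab
  have nbc := G.ne_of_adj hbc
  have ncd := G.ne_of_adj hcd
  have nac : a ≠ c := by
    rintro rfl
    exact had hcd
  have nbd : b ≠ d := by
    rintro rfl
    exact had hab
  have nad : a ≠ d := by
    rintro rfl
    exact hac hcd.symm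
  have hba := hab.symm
  have hcb := hbc.symm
  have hdc := hcd.symm
  have hca : ¬ G.Adj c a := fun h => hac h.symm
  have hdb : ¬ G.Adj d b := fun h => hbd h.symm
  have hda : ¬ G.Adj d a := fun h => had h.symm
  refine h.false ⟨⟨![a, b, c, d], ?_⟩, ?_⟩
  · intro x y hxy
    fin_cases x <;> fin_cases y <;> simp_all
  · intro x y
    fin_cases x <;> fin_cases y <;> simp_all [SimpleGraph.pathGraph_adj]

theorem result :
    ∀ n : ℕ, 3 ≤ n → ∀ (G H : SimpleGraph (Fin n)) [DecidableRel G.Adj] [DecidableRel H.Adj],
      IsEmpty (SimpleGraph.pathGraph 4 ↪g G) →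
      (Finset.univ : Finset (Fin n)).val.map
          (fun v => ((G.adjMatrix ℤ).submatrix
            (Subtype.val : {w : Fin n // w ≠ v} → Fin n)
            (Subtype.val : {w : Fin n // w ≠ v} → Fin n)).charpoly)
        = (Finset.univ : Finset (Fin n)).val.map
          (fun v => ((H.adjMatrix ℤ).submatrix
            (Subtype.val : {w : Fin n // w ≠ v} → Fin n)
            (Subtype.val : {w : Fin n // w ≠ v} → Fin n)).charpoly) →
      (G.adjMatrix ℤ).charpoly = (H.adjMatrix ℤ).charpoly := by
  intro n hn G H _ _ hG h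
  have hadj : ∀ (F : SimpleGraph (Fin n)) [DecidableRel F.Adj], Adj (F.adjMatrix ℤ) := by
    intro F _
    refine ⟨fun i j => ?_, fun i => ?_, fun i j => ?_⟩
    · simp [SimpleGraph.adjMatrix_apply, F.adj_comm]
    · simp [SimpleGraph.adjMatrix_apply]
    · rw [SimpleGraph.adjMatrix_apply]
      split_ifs
      · exact Or.inr rfl
      · exact Or.inl rfl
  obtain ⟨σ, h1, h2⟩ := relabel (G.adjMatrix ℤ) (H.adjMatrix ℤ) h
  rw [← h2]
  refine cog_core _ _ (hadj G) ((hadj H).submatrix σ) ?_ (by rw [Fintype.card_fin]; exact hn) h1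
  have hgr : gr (G.adjMatrix ℤ) (hadj G).symm (hadj G).diag = G := by
    ext x y
    change (G.adjMatrix ℤ) x y = 1 ↔ G.Adj x y
    rw [SimpleGraph.adjMatrix_apply]
    split_ifs with h
    · exact iff_of_true rfl h
    · exact iff_of_false (by norm_num) h
  rw [hgr]
  exact p4free G hG

end Pool.Agent.Results.MP_2696ff_co.Cographs
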