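import Pool.Agent.Lib.MP_2696ff_co.Two.MainB

/-!
# MP_2696ff_co, Q1 modulo 4

The constant terms of the characteristic polynomials of two graphs with the same polynomial deck
are congruent modulo 4, except possibly for a thin class of graphs of order `n` with `n % 4 = 2`.
-/

set_option autoImplicit false

namespace Pool.Agent.Results.MP_2696ff_co.ConstantTermModFour

open Pool.Agent.MP2696 Pool.Agent.MP2696.Two Polynomial

theorem result :
    ∀ n : ℕ, 3 ≤ n → ∀ (G H : SimpleGraph (Fin n)) [DecidableRel G.Adj] [DecidableRel H.Adj],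
      (Finset.univ : Finset (Fin n)).val.map
          (fun v => ((G.adjMatrix ℤ).submatrix
            (Subtype.val : {w : Fin n // w ≠ v} → Fin n)
            (Subtype.val : {w : Fin n // w ≠ v} → Fin n)).charpoly)
        = (Finset.univ : Finset (Fin n)).val.map
          (fun v => ((H.adjMatrix ℤ).submatrix
            (Subtype.val : {w : Fin n // w ≠ v} → Fin n)
            (Subtype.val : {w : Fin n // w ≠ v} → Fin n)).charpoly) →
      (4 : ℤ) ∣ (H.adjMatrix ℤ).charpoly.coeff 0 - (G.adjMatrix ℤ).charpoly.coeff 0 ∨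
      (¬ (2 : ℤ) ∣ (H.adjMatrix ℤ).charpoly.coeff 0 - (G.adjMatrix ℤ).charpoly.coeff 0 ∧
        n % 4 = 2 ∧
        (∀ k, 1 ≤ k → (2 : ℤ) ∣ (G.adjMatrix ℤ).charpoly.coeff (4 * k)) ∧
        LinearIndependent (ZMod 2)
          (fun j : Fin (n / 2) => (G.adjMatrix (ZMod 2) ^ (j : ℕ)).mulVec 1)) := by
  intro n hn G H _ _ h
  have h1 := mainB n hn (G.adjMatrix ℤ) (H.adjMatrix ℤ) (adj_graph G) (adj_graph H) h
  rw [m2_graph] at h1
  exact h1

end Pool.Agent.Results.MP_2696ff_co.ConstantTermModFour
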