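import Pool.Agent.Lib.MP_2696ff_co.Two.MainB

/-!
# MP_2696ff_co: a criterion modulo 4 for a graph to be determined by its polynomial deck

If `φ(G) = X ^ (n % 2) * ψ ^ 2 + 2 * τ` and every divisor of `ψ` modulo 2 whose irreducible factors
divide `τ` modulo 2 has degree at most 1, then every graph with the polynomial deck of `G` is
isomorphic to `G` (with one condition on the coefficients of `φ(G)` if `n % 4 = 2`).
-/

set_option autoImplicit false

namespace Pool.Agent.Results.MP_2696ff_co.TwoAdicCriterion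

open Pool.Agent.MP2696 Pool.Agent.MP2696.Two Polynomial

theorem result :
    ∀ n : ℕ, 3 ≤ n → ∀ (G H : SimpleGraph (Fin n)) [DecidableRel G.Adj] [DecidableRel H.Adj],
      (Finset.univ : Finset (Fin n)).val.map
          (fun v => ((G.adjMatrix ℤ).submatrix
            (Subtype.val : {w : Fin n // w ≠ v} → Fin n)
            (Subtype.val : {w : Fin n // w ≠ v} → Fin n)).charpoly)
        = (Finset.univ : Finset (Fin n)).val.map
          (fun v => ((H.adjMatrix ℤ).submatrix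
            (Subtype.val : {w : Fin n // w ≠ v} → Fin n)
            (Subtype.val : {w : Fin n // w ≠ v} → Fin n)).charpoly) →
      (n % 4 ≠ 2 ∨ (∃ k, 1 ≤ k ∧ ¬ (2 : ℤ) ∣ (G.adjMatrix ℤ).charpoly.coeff (4 * k)) ∨
        (2 : ℤ) ∣ (H.adjMatrix ℤ).charpoly.coeff 0 - (G.adjMatrix ℤ).charpoly.coeff 0) →
      (∃ ψ τ : ℤ[X], (G.adjMatrix ℤ).charpoly = X ^ (n % 2) * ψ ^ 2 + 2 * τ) ∧
      ∀ ψ τ : ℤ[X], (G.adjMatrix ℤ).charpoly = X ^ (n % 2) * ψ ^ 2 + 2 * τ →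
        (∃ (σ : Equiv.Perm (Fin n)) (D : (ZMod 2)[X]),
          D ∣ ψ.map (Int.castRingHom (ZMod 2)) ∧
          (∀ p, Irreducible p → p ∣ D → p ∣ τ.map (Int.castRingHom (ZMod 2))) ∧
          (G.adjMatrix (ZMod 2) + (H.adjMatrix (ZMod 2)).submatrix σ σ) *
            aeval (G.adjMatrix (ZMod 2)) D = 0 ∧
          ((∀ i j, G.Adj i j ↔ H.Adj (σ i) (σ j)) ∨ 2 ≤ D.natDegree)) ∧
        ((∀ D : (ZMod 2)[X], D ∣ ψ.map (Int.castRingHom (ZMod 2)) →
            (∀ p, Irreducible p → p ∣ D → p ∣ τ.map (Int.castRingHom (ZMod 2))) →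
            D.natDegree ≤ 1) →
          Nonempty (G ≃g H)) := by
  intro n hn G H _ _ h hex
  have hG := adj_graph G
  have hH := adj_graph H
  obtain ⟨h1, h2, h3⟩ := mainA n hn (G.adjMatrix ℤ) (H.adjMatrix ℤ) hG hH h
  have h4 : (4 : ℤ) ∣ (H.adjMatrix ℤ).charpoly.coeff 0 - (G.adjMatrix ℤ).charpoly.coeff 0 := by
    rcases hex with h5 | h5 | h5
    · exact h2 (Or.inl h5)
    · exact h2 (Or.inr h5)
    · exact h1 h5
  refine ⟨?_, fun ψ τ hψ => ?_⟩
  · obtain ⟨ψ, τ, hψ, -, -⟩ := allForm n (G.adjMatrix ℤ) ⟨hG.symm, hG.diag⟩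
    exact ⟨ψ, τ, hψ⟩
  obtain ⟨σ, D, hD1, hD2, hD3, hD4⟩ := h3 h4 ψ τ hψ
  have hiso : G.adjMatrix ℤ = (H.adjMatrix ℤ).submatrix σ σ →
      ∀ i j, G.Adj i j ↔ H.Adj (σ i) (σ j) := by
    intro he i j
    have h4 := congrFun (congrFun he i) j
    rw [Matrix.submatrix_apply, SimpleGraph.adjMatrix_apply, SimpleGraph.adjMatrix_apply] at h4
    by_cases h5 : G.Adj i j <;> by_cases h6 : H.Adj (σ i) (σ j) <;> simp_all
  have hm : m2 ((H.adjMatrix ℤ).submatrix σ σ) = (H.adjMatrix (ZMod 2)).submatrix σ σ := by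
    rw [← m2_graph]
    rfl
  rw [hm, m2_graph] at hD3
  have hD4' : (∀ i j, G.Adj i j ↔ H.Adj (σ i) (σ j)) ∨ 2 ≤ D.natDegree := hD4.imp_left hiso
  refine ⟨⟨σ, D, hD1, hD2, hD3, hD4'⟩, fun hD => ?_⟩
  rcases hD4' with h5 | h5
  · exact ⟨⟨σ, fun {a b} => (h5 a b).symm⟩⟩
  · have := hD D hD1 hD2
    omega

end Pool.Agent.Results.MP_2696ff_co.TwoAdicCriterion
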